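import Pool.Agent.Y924.UF.Stm3
import Pool.Agent.Y686.UF.Clo
import Pool.Agent.Y824.UF.Fint

/-! # Project UF (helper924), part UF3-TFV (by helper286): translations of closed formulas are
closed -/

set_option autoImplicit false

namespace Pool.Agent.Y286.UF

open Function
open Pool.Agent.Y924.EL Pool.Agent.Y924.UF

lemma fv_inst {τ : Tp} {h : Fin 5 → Fm} (hτ : BelowT 100 τ) {x : ℕ} (hx : x ∈ (τ.inst h).fv) :
    x < 100 ∨ ∃ k, x ∈ (h k).fv := by
  induction τ with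
  | hole i => exact Or.inr ⟨i, hx⟩
  | atom φ => exact Or.inl (Pool.Agent.Y686.UF.below_fv 100 φ hτ x hx)
  | neg τ ih => exact ih hτ hx
  | and τ υ ih1 ih2 =>
    simp only [Tp.inst, Fm.fv, Finset.mem_union] at hx
    rcases hx with hx | hx
    · exact ih1 hτ.1 hx
    · exact ih2 hτ.2 hx
  | ex i τ ih =>
    simp only [Tp.inst, Fm.fv, Finset.mem_erase] at hx
    exact ih hτ.2 hx.2

lemma fv_ren (σ : ℕ → ℕ) (φ : Fm) {x : ℕ} (hx : x ∈ (ren σ φ).fv) : ∃ j ∈ φ.fv, x = σ j := by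
  induction φ with
  | eq i j =>
    simp only [ren, Fm.fv, Finset.mem_insert, Finset.mem_singleton] at hx
    rcases hx with rfl | rfl
    · exact ⟨i, by simp [Fm.fv], rfl⟩
    · exact ⟨j, by simp [Fm.fv], rfl⟩
  | one i =>
    simp only [ren, Fm.fv, Finset.mem_singleton] at hx
    exact ⟨i, by simp [Fm.fv], hx⟩
  | add i j k =>
    simp only [ren, Fm.fv, Finset.mem_insert, Finset.mem_singleton] at hx
    rcases hx with rfl | rfl | rfl
    · exact ⟨i, by simp [Fm.fv], rfl⟩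
    · exact ⟨j, by simp [Fm.fv], rfl⟩
    · exact ⟨k, by simp [Fm.fv], rfl⟩
  | mul i j k =>
    simp only [ren, Fm.fv, Finset.mem_insert, Finset.mem_singleton] at hx
    rcases hx with rfl | rfl | rfl
    · exact ⟨i, by simp [Fm.fv], rfl⟩
    · exact ⟨j, by simp [Fm.fv], rfl⟩
    · exact ⟨k, by simp [Fm.fv], rfl⟩
  | val i =>
    simp only [ren, Fm.fv, Finset.mem_singleton] at hx
    exact ⟨i, by simp [Fm.fv], hx⟩
  | neg φ ih => exact ih hx
  | and φ ψ ih1 ih2 =>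
    simp only [ren, Fm.fv, Finset.mem_union] at hx
    rcases hx with hx | hx
    · obtain ⟨j, hj, h⟩ := ih1 hx
      exact ⟨j, by simp [Fm.fv, hj], h⟩
    · obtain ⟨j, hj, h⟩ := ih2 hx
      exact ⟨j, by simp [Fm.fv, hj], h⟩
  | ex i φ ih =>
    simp only [ren, Fm.fv, Finset.mem_erase] at hx
    obtain ⟨j, hj, h⟩ := ih hx.2
    refine ⟨j, ?_, h⟩
    simp only [Fm.fv, Finset.mem_erase]
    refine ⟨?_, hj⟩
    rintro rfl
    exact hx.1 h

lemma fv_exR (a : ℕ) (χ : Fm) {x : ℕ} : ∀ n : ℕ, x ∈ (exR a n χ).fv →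
    x ∈ χ.fv ∧ ¬ (a ≤ x ∧ x < a + n) := by
  intro n
  induction n with
  | zero =>
    intro hx
    exact ⟨hx, by omega⟩
  | succ n ih =>
    intro hx
    simp only [exR, Fm.fv, Finset.mem_erase] at hx
    obtain ⟨h1, h2⟩ := ih hx.2
    refine ⟨h1, ?_⟩
    have := hx.1
    omega

lemma fv_sgB {V i : ℕ} {φ : Fm} (hφ : Below V φ) {x : ℕ} (hx : x ∈ (ren (sgB V i) φ).fv) :
    x < 100 ∨ (100 + V * i < x ∧ x < 100 + V * i + V) := by
  obtain ⟨j, hj, h⟩ := fv_ren _ _ hx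
  have h1 := Pool.Agent.Y686.UF.below_fv V φ hφ j hj
  unfold sgB at h
  by_cases hj0 : j = 0
  · rw [if_pos hj0] at h
    left
    omega
  · rw [if_neg hj0] at h
    right
    omega

lemma fv_bas {τ : Tp} {V : ℕ} {φ : Fm} {i j k : ℕ} (hφ : Below V φ) (hτ : BelowT 100 τ) {x : ℕ}
    (hx : x ∈ (bas τ V φ i j k).fv) : (100 + V * i < x ∧ x < 100 + V * i + V) ∨
      (100 + V * j < x ∧ x < 100 + V * j + V) ∨ (100 + V * k < x ∧ x < 100 + V * k + V) := by
  unfold bas at hx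
  obtain ⟨h1, h2⟩ := fv_exR _ _ _ hx
  have h3 : ¬ x < 100 := by omega
  rcases fv_inst hτ h1 with h | ⟨m, hm⟩
  · exact absurd h h3
  · fin_cases m
    · exact Or.inl ((fv_sgB hφ hm).resolve_left h3)
    · exact Or.inr (Or.inl ((fv_sgB hφ hm).resolve_left h3))
    · exact Or.inr (Or.inr ((fv_sgB hφ hm).resolve_left h3))
    · exfalso
      have : x ∈ (Fm.one 0).fv := hm
      simp only [Fm.fv, Finset.mem_singleton] at this
      omega
    · exfalso
      have : x ∈ (Fm.one 0).fv := hm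
      simp only [Fm.fv, Finset.mem_singleton] at this
      omega

lemma below_TEq (p : ℕ) : BelowT 100 (TEq p) := by
  have hB := Pool.Agent.Y686.UF.below_BF (V := 100) (by norm_num) p
  simp only [TEq, TBij, cU, cR, BFa, Tp.call1, Tp.eqv, Tp.imp, Tp.all, BelowT, Below, hB,
    and_true]
  omega

lemma below_TAdd (p : ℕ) : BelowT 100 (TAdd p) := by
  have hB := Pool.Agent.Y686.UF.below_BF (V := 100) (by norm_num) p
  simp only [TAdd, TBij, cU, cR, BFa, Tp.call1, Tp.eqv, Tp.imp, Tp.all, BelowT, Below, hB,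
    and_true]
  omega

lemma below_TMul (p : ℕ) : BelowT 100 (TMul p) := by
  have hB := Pool.Agent.Y686.UF.below_BF (V := 100) (by norm_num) p
  simp only [TMul, TFn, TOnto, cU, cR, BFa, Tp.call1, Tp.eqv, Tp.imp, Tp.all, BelowT, Below, hB,
    and_true]
  omega

lemma below_TOne : BelowT 100 TOne := by
  simp only [TOne, cU, Tp.call1, Tp.eqv, Tp.imp, Tp.all, BelowT, Below, and_true]
  omega

lemma below_TFin (p : ℕ) : BelowT 100 (TFin p) :=
  ⟨by norm_num, Pool.Agent.Y824.UF.below_FinT2 (by norm_num) p⟩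

lemma fv_trF (p V : ℕ) (φ : Fm) (hφ : Below V φ) (ψ : Fm) {x : ℕ} :
    x ∈ (trF p V φ ψ).fv → ∃ i ∈ ψ.fv, 100 + V * i < x ∧ x < 100 + V * i + V := by
  induction ψ with
  | eq i j =>
    intro hx
    rcases fv_bas hφ (below_TEq p) hx with h | h | h
    · exact ⟨i, by simp [Fm.fv], h⟩
    · exact ⟨j, by simp [Fm.fv], h⟩
    · exact ⟨i, by simp [Fm.fv], h⟩
  | one i =>
    intro hx
    rcases fv_bas hφ below_TOne hx with h | h | h
    · exact ⟨i, by simp [Fm.fv], h⟩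
    · exact ⟨i, by simp [Fm.fv], h⟩
    · exact ⟨i, by simp [Fm.fv], h⟩
  | add i j k =>
    intro hx
    rcases fv_bas hφ (below_TAdd p) hx with h | h | h
    · exact ⟨i, by simp [Fm.fv], h⟩
    · exact ⟨j, by simp [Fm.fv], h⟩
    · exact ⟨k, by simp [Fm.fv], h⟩
  | mul i j k =>
    intro hx
    rcases fv_bas hφ (below_TMul p) hx with h | h | h
    · exact ⟨i, by simp [Fm.fv], h⟩
    · exact ⟨j, by simp [Fm.fv], h⟩
    · exact ⟨k, by simp [Fm.fv], h⟩
  | val i =>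
    intro hx
    simp [trF, Fm.fv] at hx
  | neg ψ ih =>
    intro hx
    exact ih hx
  | and ψ χ ih1 ih2 =>
    intro hx
    simp only [trF, Fm.fv, Finset.mem_union] at hx
    rcases hx with hx | hx
    · obtain ⟨j, hj, h⟩ := ih1 hx
      exact ⟨j, by simp [Fm.fv, hj], h⟩
    · obtain ⟨j, hj, h⟩ := ih2 hx
      exact ⟨j, by simp [Fm.fv, hj], h⟩
  | ex i ψ ih =>
    intro hx
    obtain ⟨h1, h2⟩ := fv_exR _ _ _ hx
    simp only [Fm.fv, Finset.mem_union] at h1
    rcases h1 with h1 | h1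
    · exfalso
      rcases fv_bas hφ (below_TFin p) h1 with h | h | h <;> exact h2 ⟨h.1.le, h.2⟩
    · obtain ⟨j, hj, h⟩ := ih h1
      refine ⟨j, ?_, h⟩
      simp only [Fm.fv, Finset.mem_erase]
      refine ⟨?_, hj⟩
      rintro rfl
      exact h2 ⟨h.1.le, h.2⟩

theorem t_TFV : S_TFV := by
  intro p V φ hφ ψ hψ
  rw [Finset.eq_empty_iff_forall_notMem]
  intro x hx
  obtain ⟨i, hi, _⟩ := fv_trF p V φ hφ ψ hx
  rw [hψ] at hi
  exact absurd hi (Finset.notMem_empty i)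

end Pool.Agent.Y286.UF
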